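import Pool.Agent.H.MP_7279d0.B

set_option autoImplicit false

open Cardinal hiding map
open Set Filter Pool.Agent.H.MP_7279d0

namespace Pool.Agent.H.MP_6ed562_lc

variable {M : Set ℕ → Set ℕ → ℕ → Set ℕ} {F : Filter ℕ} {S : Set (Set ℕ)}

lemma nb (h : GI M F S) : F.NeBot := ⟨fun e => (h ∅ (fun _ => (0, ∅)) (by simp) (by simp) ∅
  (e ▸ mem_bot)).ne_empty (empty_inter _)⟩

lemma gm {T : Set (Set ℕ)} (h : GI M F S) (t : T ⊆ S) : GI M F T := fun s x hs => h s x (hs.trans t)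

/-- two filters at once -/
theorem kunen2 (m1 : GI M cofinite Set.univ) (K : Type) (hK : #K ≤ 𝔠)
    (Good : K → Filter ℕ → Filter ℕ → Prop)
    (step : ∀ k A B S, GI M A S → GI M B S → ¬ S.Countable → ∃ A' ≤ A, ∃ B' ≤ B,
      ∃ r : Set (Set ℕ), r.Countable ∧ GI M A' (S \ r) ∧ GI M B' (S \ r) ∧ Good k A' B') :
    ∃ u v : Ultrafilter ℕ, (u : Filter ℕ) ≤ cofinite ∧ (v : Filter ℕ) ≤ cofinite ∧
      ∀ k, ∃ A B, (u : Filter ℕ) ≤ A ∧ (v : Filter ℕ) ≤ B ∧ Good k A B := by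
  obtain ⟨U, u1, u2⟩ := kunen (α := ℕ × ℕ) (fun F S => F = map Prod.fst F ×ˢ map Prod.snd F ∧
      GI M (map Prod.fst F) S ∧ GI M (map Prod.snd F) S)
    (fun h t => ⟨h.1, gm h.2.1 t, gm h.2.2 t⟩) (fun h => (nb h.2.1).of_map)
    (fun {c S} hc hn h => by
      have a := GI.ch (M := M) (S := S) (hc.image_of_map_rel _ (· ≤ ·) (map Prod.fst)
        fun _ _ a => map_mono a)
        (hn.image _) (by rintro _ ⟨F, hF, rfl⟩; exact (h F hF).2.1)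
      have b := GI.ch (M := M) (S := S) (hc.image_of_map_rel _ (· ≤ ·) (map Prod.snd)
        fun _ _ a => map_mono a)
        (hn.image _) (by rintro _ ⟨F, hF, rfl⟩; exact (h F hF).2.2)
      have e : sInf c = sInf (map Prod.fst '' c) ×ˢ sInf (map Prod.snd '' c) := by
        refine le_antisymm (le_prod.2 ⟨le_sInf ?_, le_sInf ?_⟩) (le_sInf fun F hF => ?_)
        · rintro _ ⟨F, hF, rfl⟩; exact map_mono (sInf_le hF)
        · rintro _ ⟨F, hF, rfl⟩; exact map_mono (sInf_le hF)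
        · exact (Filter.prod_mono (sInf_le (mem_image_of_mem _ hF))
            (sInf_le (mem_image_of_mem _ hF))).trans (h F hF).1.ge
      have := nb a
      have := nb b
      rw [e, map_fst_prod, map_snd_prod]
      exact ⟨rfl, a, b⟩)
    (F0 := cofinite ×ˢ cofinite) (by rw [map_fst_prod, map_snd_prod]; exact ⟨rfl, m1, m1⟩) K hK
    (fun k G => Good k (map Prod.fst G) (map Prod.snd G)) (fun k F S _ h hS => by
      obtain ⟨A, a, B, b, r, r1, r2, r3, r4⟩ := step k _ _ S h.2.1 h.2.2 hS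
      have := nb r2
      have := nb r3
      refine ⟨A ×ˢ B, (Filter.prod_mono a b).trans h.1.ge, r, r1, ?_⟩
      rw [map_fst_prod, map_snd_prod]
      exact ⟨⟨rfl, r2, r3⟩, r4⟩)
  refine ⟨U.map Prod.fst, U.map Prod.snd, (le_prod.1 u1).1, (le_prod.1 u1).2, fun k => ?_⟩
  obtain ⟨G, g1, g2⟩ := u2 k
  exact ⟨_, _, map_mono g1, map_mono g1, g2⟩

/-- the sequence is taken care of -/
def GW (M : Set ℕ → Set ℕ → ℕ → Set ℕ) (C : ℕ → Set ℕ) (G : Filter ℕ) : Prop :=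
  (∃ n, (C n)ᶜ ∈ G) ∨ ∃ i, ∀ a, {x | ∀ n, x ∉ C n → x ∈ M i a n} ∈ G

lemma sw (m2 : ∀ i a, Monotone (M i a)) (C : ℕ → Set ℕ) (h : GI M F S) (hS : ¬ S.Countable) :
    ∃ G ≤ F, ∃ r : Set (Set ℕ), r.Countable ∧ GI M G (S \ r) ∧ GW M C G := by
  classical
  obtain ⟨G, g1, g2, g3⟩ := h.max
  by_cases k : ∀ n, C n ∈ G
  · obtain ⟨i, hi⟩ := nonempty_iff_ne_empty.2 fun e : S = ∅ => hS (e ▸ countable_empty)
    refine ⟨G ⊓ ⨅ a, 𝓟 {x | ∀ n, x ∉ C n → x ∈ M i a n}, inf_le_left.trans g1, {i},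
      countable_singleton i, fun s c hs hc B hB => ?_, .inr ⟨_, fun a => mem_inf_of_right
        (mem_iInf_of_mem a (mem_principal_self _))⟩⟩
    obtain ⟨B, b1, D, d1, rfl⟩ := mem_inf_iff.1 hB
    obtain ⟨t, ht⟩ := (mem_iInf_finite _).1 d1
    rw [iInf_principal_finset, mem_principal] at ht
    obtain ⟨n, ⟨n1, n2⟩, n3⟩ := g2 (insert i s) (Function.update c i (t.card, t))
      (by rw [Finset.coe_insert]; exact insert_subset hi (hs.trans sdiff_subset))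
      (fun j => by by_cases a : j = i <;> simp [a, hc]) _
      (inter_mem b1 ((biInter_mem (finite_Iio t.card)).2 fun n _ => k n))
    refine ⟨n, ⟨n1, ht (mem_iInter₂.2 fun a ha m hm => m2 _ _
      (not_lt.1 fun k => hm (mem_iInter₂.1 n2 m k)) ?_)⟩, fun j hj => ?_⟩
    · simpa using n3 i (by simp) a (by simpa)
    · simpa [show j ≠ i from (hs hj).2] using n3 j (by simp [hj])
  · obtain ⟨n, hn⟩ := not_forall.1 k
    obtain ⟨s, c, s1, s2, s3⟩ := g3 _ hn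
    exact ⟨_, inf_le_left.trans g1, s, s.countable_toSet, g2.add s1 s2, .inl ⟨n,
      mem_inf_principal.2 (mem_of_superset s3 fun x a b => a.resolve_right fun k => k b)⟩⟩

lemma si (f : ℕ → ℕ) {B : Filter ℕ} (h : GI M F S) (h' : GI M B S) (hS : ¬ S.Countable) :
    ∃ A' ≤ F, ∃ B' ≤ B, ∃ r : Set (Set ℕ), r.Countable ∧ GI M A' (S \ r) ∧ GI M B' (S \ r) ∧
      ∃ i, (f ⁻¹' M i ∅ 1 ∈ A' ∧ M i Set.univ 1 ∈ B') ∨ (f ⁻¹' (M i ∅ 1)ᶜ ∈ A' ∧ M i ∅ 1 ∈ B') := by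
  classical
  obtain ⟨i, hi⟩ := nonempty_iff_ne_empty.2 fun e : S = ∅ => hS (e ▸ countable_empty)
  obtain ⟨G, g1, g2, g3⟩ := h.max
  have k : ∀ a, GI M (B ⊓ 𝓟 (cm M {i} fun _ => (1, {a}))) (S \ ({i} : Finset (Set ℕ))) ∧
      M i a 1 ∈ B ⊓ 𝓟 (cm M {i} fun _ => (1, {a})) := fun a =>
    ⟨h'.add (by simpa) (by simp), mem_inf_of_right fun x hx => hx i (by simp) a (by simp)⟩
  by_cases e : f ⁻¹' M i ∅ 1 ∈ G
  · exact ⟨G, g1, _, inf_le_left, _, Finset.countable_toSet _, gm g2 sdiff_subset, (k _).1, i,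
      .inl ⟨e, (k _).2⟩⟩
  · obtain ⟨s, c, s1, s2, s3⟩ := g3 _ e
    exact ⟨_, inf_le_left.trans g1, _, inf_le_left, s ∪ ({i} : Finset (Set ℕ)),
      s.countable_toSet.union (Finset.countable_toSet _),
      gm (g2.add s1 s2) fun x hx => ⟨hx.1, fun a => hx.2 (.inl a)⟩,
      gm (k ∅).1 fun x hx => ⟨hx.1, fun a => hx.2 (.inr a)⟩, i, .inr ⟨mem_inf_principal.2
        (mem_of_superset s3 fun x a b => a.resolve_right fun k => k b), (k _).2⟩⟩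

/-- weak P-points -/
def WP (u : Ultrafilter ℕ) : Prop := (u : Filter ℕ) ≤ cofinite ∧ ∀ r : ℕ → Ultrafilter ℕ,
  ∃ V ∈ u, ∀ n, (r n : Filter ℕ) ≤ cofinite → r n ≠ u → V ∉ r n

lemma wpo (m3 : ∀ i n (σ : Finset (Set ℕ)), n < σ.card → {x | ∀ a ∈ σ, x ∈ M i a n}.Finite)
    {p : Ultrafilter ℕ} (p1 : (p : Filter ℕ) ≤ cofinite)
    (p2 : ∀ C, ∃ G, (p : Filter ℕ) ≤ G ∧ GW M C G) : WP p := by
  refine ⟨p1, fun r => ?_⟩
  have : ∀ n, ∃ C ∈ p, r n ≠ p → C ∉ r n := fun n => by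
    by_contra! k
    exact (k _ univ_mem).1 (Ultrafilter.eq_of_le fun C h => (k C h).2)
  choose C c1 c2 using this
  obtain ⟨G, g, ⟨n, h⟩ | ⟨i, h⟩⟩ := p2 C
  · exact (Ultrafilter.compl_mem_iff_notMem.1 (g h) (c1 n)).elim
  by_contra! k
  choose f f1 f2 f3 using fun a => k _ (g (h a))
  obtain ⟨n, hn⟩ : ∃ n, (f ⁻¹' {n}).Infinite := by
    by_contra! k
    have : Uncountable (Set ℕ) := aleph0_lt_mk_iff.1 (by simpa using aleph0_lt_continuum)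
    exact not_countable_univ (α := Set ℕ) ((countable_iUnion fun n => (k n).countable).mono
      fun a _ => mem_iUnion.2 ⟨f a, rfl⟩)
  obtain ⟨σ, s1, s2⟩ := hn.exists_subset_card_eq (n + 1)
  obtain ⟨a, ha⟩ := hn.nonempty
  cases ha
  exact c2 _ (f2 a) (mem_of_superset (inter_mem (f1 a (m3 i (f a) σ (by omega)).compl_mem_cofinite)
    ((eventually_all_finset σ (p := fun b x => ∀ n, x ∉ C n → x ∈ M i b n)).2 fun b hb =>
      show _ ∈ r (f a) from s1 hb ▸ f3 b))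
      fun y hy => not_not.1 fun k => hy.1 fun b hb => hy.2 b hb _ k)

theorem two : ∃ u v : Ultrafilter ℕ, WP u ∧ WP v ∧ (∀ f : ℕ → ℕ, ¬ Tendsto f u v) ∧
    ∀ f : ℕ → ℕ, ¬ Tendsto f v u := by
  classical
  obtain ⟨M, m1, m2, m3⟩ := mat
  obtain ⟨u, v, u1, v1, h⟩ := kunen2 m1 (Bool × ((ℕ → Set ℕ) ⊕ (ℕ → ℕ))) (by simp)
    (fun k A B => k.2.elim (fun C => GW M C (cond k.1 A B)) fun f => ∃ i,
      (f ⁻¹' M i ∅ 1 ∈ cond k.1 A B ∧ M i Set.univ 1 ∈ cond k.1 B A) ∨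
        (f ⁻¹' (M i ∅ 1)ᶜ ∈ cond k.1 A B ∧ M i ∅ 1 ∈ cond k.1 B A)) (by
    rintro ⟨_ | _, C | f⟩ A B S a b hS
    · obtain ⟨G, g, r, r1, r2, r3⟩ := sw m2 C b hS
      exact ⟨A, le_rfl, G, g, r, r1, gm a sdiff_subset, r2, r3⟩
    · obtain ⟨G, g, H, h, r, r1, r2, r3, r4⟩ := si f b a hS
      exact ⟨H, h, G, g, r, r1, r3, r2, r4⟩
    · obtain ⟨G, g, r, r1, r2, r3⟩ := sw m2 C a hS
      exact ⟨G, g, B, le_rfl, r, r1, r2, gm b sdiff_subset, r3⟩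
    · exact si f a b hS)
  have key : ∀ (p q : Ultrafilter ℕ) (f : ℕ → ℕ) (A B : Filter ℕ), (q : Filter ℕ) ≤ cofinite →
      (p : Filter ℕ) ≤ A → (q : Filter ℕ) ≤ B → (∃ i, (f ⁻¹' M i ∅ 1 ∈ A ∧ M i Set.univ 1 ∈ B) ∨
        (f ⁻¹' (M i ∅ 1)ᶜ ∈ A ∧ M i ∅ 1 ∈ B)) → ¬ Tendsto f p q := by
    rintro p q f A B q1 a b ⟨i, ⟨c, d⟩ | ⟨c, d⟩⟩ t
    · obtain ⟨x, x1, x2, x3⟩ := p.nonempty_of_mem (inter_mem (a c) (t (inter_mem (b d)
        (q1 (m3 i 1 {∅, Set.univ} (by simp [Finset.card_pair empty_ne_univ])).compl_mem_cofinite))))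
      exact x3 fun y hy => by
        rcases Finset.mem_insert.1 hy with e | e
        exacts [e ▸ x1, Finset.mem_singleton.1 e ▸ x2]
    · obtain ⟨x, x1, x2⟩ := p.nonempty_of_mem (inter_mem (a c) (t (b d)))
      exact x1 x2
  refine ⟨u, v, wpo m3 u1 fun C => ?_, wpo m3 v1 fun C => ?_, fun f => ?_, fun f => ?_⟩
  · obtain ⟨A, B, a, b, c⟩ := h (true, .inl C)
    exact ⟨A, a, c⟩
  · obtain ⟨A, B, a, b, c⟩ := h (false, .inl C)
    exact ⟨B, b, c⟩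
  · obtain ⟨A, B, a, b, c⟩ := h (true, .inr f)
    exact key u v f A B v1 a b c
  · obtain ⟨A, B, a, b, c⟩ := h (false, .inr f)
    exact key v u f B A u1 b a c

end Pool.Agent.H.MP_6ed562_lc
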